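import Pool.Agent.Helper45_PGE.Defs

/-!
MP_5b1cbc_ag, squad PGE, module COV: the criterion for `¬ IsPGH`.
-/

set_option autoImplicit false

open CategoryTheory AlgebraicGeometry Polynomial

universe u

namespace Pool.Agent.PGE.H69

open Pool.Agent.PGE

section finhom

variable {k L : Type u} [Field k] [Field L] [Algebra k L]

open scoped IntermediateField.algebraAdjoinAdjoin in
/-- an element algebraic over `k(x)` is a root of a nonzero bivariate polynomial -/
theorem exists_biv {x a : L} (h : IsAlgebraic (IntermediateField.adjoin k {x}) a) :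
    ∃ Q : k[X][X], Q ≠ 0 ∧ Q.eval₂ (aeval x : k[X] →ₐ[k] L).toRingHom a = 0 := by
  have h1 : IsAlgebraic (Algebra.adjoin k {x}) a :=
    (IsFractionRing.isAlgebraic_iff (Algebra.adjoin k {x}) (IntermediateField.adjoin k {x}) L).2 h
  obtain ⟨P, hP0, hP⟩ := h1
  have hsurj : ∀ c : Algebra.adjoin k {x}, ∃ q : k[X], aeval x q = (c : L) := by
    intro c
    have := c.2
    have h2 : (c : L) ∈ (aeval x : k[X] →ₐ[k] L).range :=
      (Algebra.adjoin_singleton_eq_range_aeval k x) ▸ this
    exact h2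
  let π : k[X] →+* Algebra.adjoin k {x} :=
    ((aeval (⟨x, Algebra.subset_adjoin rfl⟩ : Algebra.adjoin k {x}) :
      k[X] →ₐ[k] Algebra.adjoin k {x}) : k[X] →+* Algebra.adjoin k {x})
  have hπ : ∀ q : k[X], ((π q : Algebra.adjoin k {x}) : L) = aeval x q := by
    intro q
    have := Polynomial.aeval_algebraMap_apply L
      (⟨x, Algebra.subset_adjoin rfl⟩ : Algebra.adjoin k {x}) q
    exact this.symm
  have hπs : Function.Surjective π := by
    intro c
    obtain ⟨q, hq⟩ := hsurj c
    exact ⟨q, Subtype.ext ((hπ q).trans hq)⟩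
  obtain ⟨Q, hQ⟩ := Polynomial.map_surjective π hπs P
  refine ⟨Q, ?_, ?_⟩
  · rintro rfl
    exact hP0 (by rw [← hQ]; simp)
  · rw [← hQ, Polynomial.aeval_def, Polynomial.eval₂_map] at hP
    rw [← hP]
    congr 1
    ext q
    · exact (hπ _).symm
    · exact (hπ _).symm

/-- finitely many homomorphisms with a given value at a transcendental element -/
theorem finite_homs (A : Subalgebra k L) (ft : Algebra.FiniteType k A)
    (x : A) (halg : Algebra.IsAlgebraic (IntermediateField.adjoin k {(x : L)}) L) (y : L)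
    (hy : Transcendental k y) : {φ : A →ₐ[k] L | φ x = y}.Finite := by
  classical
  obtain ⟨s, hs⟩ := ft.out
  have hQ : ∀ a : A, ∃ T : Set L, T.Finite ∧ ∀ φ : A →ₐ[k] L, φ x = y → φ a ∈ T := by
    intro a
    obtain ⟨Q, hQ0, hQ⟩ := exists_biv (halg.isAlgebraic (a : L))
    have hinj : Function.Injective (aeval y : k[X] →ₐ[k] L) :=
      transcendental_iff_injective.1 hy
    have hne : Q.map (aeval y : k[X] →ₐ[k] L).toRingHom ≠ 0 := by
      rw [Ne, Polynomial.map_eq_zero_iff]
      · exact hQ0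
      · exact hinj
    refine ⟨{b | b ∈ (Q.map (aeval y : k[X] →ₐ[k] L).toRingHom).roots.toFinset}, ?_, ?_⟩
    · exact Finset.finite_toSet _
    · intro φ hφ
      show φ a ∈ (Q.map (aeval y : k[X] →ₐ[k] L).toRingHom).roots.toFinset
      rw [Multiset.mem_toFinset, Polynomial.mem_roots hne, Polynomial.IsRoot, Polynomial.eval_map]
      have hA : Q.eval₂ (aeval x : k[X] →ₐ[k] A).toRingHom a = 0 := by
        apply Subtype.ext
        have h1 := Polynomial.hom_eval₂ Q (aeval x : k[X] →ₐ[k] A).toRingHom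
          (A.val : A →+* L) a
        have h2 : (A.val : A →+* L).comp (aeval x : k[X] →ₐ[k] A).toRingHom =
            (aeval (x : L) : k[X] →ₐ[k] L).toRingHom := by
          ext q
          · simp
          · simp
        rw [h2] at h1
        exact h1.trans hQ
      have h1 := Polynomial.hom_eval₂ Q (aeval x : k[X] →ₐ[k] A).toRingHom (φ : A →+* L) a
      have h2 : (φ : A →+* L).comp (aeval x : k[X] →ₐ[k] A).toRingHom =
          (aeval y : k[X] →ₐ[k] L).toRingHom := by
        ext q
        · simp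
        · simp [hφ]
      rw [h2, hA, map_zero] at h1
      exact h1.symm
  choose T hT hmem using hQ
  have hfin : (Set.pi Set.univ (fun a : s => T (a : A))).Finite :=
    Set.Finite.pi (fun a => hT _)
  refine Set.Finite.of_injOn (f := fun (φ : A →ₐ[k] L) (a : s) => φ (a : A)) ?_ ?_ hfin
  · intro φ hφ a _
    exact hmem _ φ hφ
  · intro φ _ ψ _ h
    apply AlgHom.ext_of_adjoin_eq_top hs
    intro a ha
    exact congrFun h ⟨a, ha⟩

end finhom

section local_

variable {k L : Type u} [Field k] [Field L] [Algebra k L]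

/-- the endomorphism `Φ` with values in the local ring of the place `c`. -/
theorem exists_local (A : Subalgebra k L) [IsFractionRing A L] (c : A →ₐ[k] k)
    (𝔪 : Ideal A) [𝔪.IsPrime] (h𝔪 : ∀ a, a ∈ 𝔪 ↔ c a = 0) (Φ : A →ₐ[k] L)
    (hΦ : ∀ a : A, ∃ p q : A, c q ≠ 0 ∧ Φ a * (q : L) = (p : L) ∧ c p = c a * c q) :
    ∃ (ι : Localization.AtPrime 𝔪 →+* L) (e : Localization.AtPrime 𝔪 →+* k)
      (Φ' : A →+* Localization.AtPrime 𝔪), Function.Injective ι ∧
      (∀ a, ι (algebraMap A _ a) = (a : L)) ∧ (∀ a, e (algebraMap A _ a) = c a) ∧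
      (∀ a, ι (Φ' a) = Φ a) ∧ (∀ a, e (Φ' a) = c a) := by
  have hu : ∀ y : 𝔪.primeCompl, IsUnit (algebraMap A L y) := by
    intro y
    rw [isUnit_iff_ne_zero]
    intro h
    have h0 : (y : A) = 0 := by
      apply IsFractionRing.injective A L
      rw [h, map_zero]
    exact y.2 (by
      show (y : A) ∈ 𝔪
      rw [h0]
      exact 𝔪.zero_mem)
  have hc : ∀ y : 𝔪.primeCompl, IsUnit ((c : A →+* k) y) := by
    intro y
    rw [isUnit_iff_ne_zero]
    intro h
    exact y.2 ((h𝔪 _).2 h)
  let ι : Localization.AtPrime 𝔪 →+* L := IsLocalization.lift (M := 𝔪.primeCompl) hu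
  let e : Localization.AtPrime 𝔪 →+* k := IsLocalization.lift (M := 𝔪.primeCompl) hc
  have hιa : ∀ a, ι (algebraMap A _ a) = (a : L) := fun a => IsLocalization.lift_eq hu a
  have hea : ∀ a, e (algebraMap A _ a) = c a := fun a => IsLocalization.lift_eq hc a
  have hinj : Function.Injective ι := by
    rw [injective_iff_map_eq_zero]
    intro z hz
    obtain ⟨a, s, rfl⟩ := IsLocalization.exists_mk'_eq 𝔪.primeCompl z
    have h1 : ι (IsLocalization.mk' _ a s) * ι (algebraMap A _ s) = ι (algebraMap A _ a) := by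
      rw [← map_mul, IsLocalization.mk'_spec]
    rw [hz, zero_mul, hιa] at h1
    have h2 : a = 0 := Subtype.ext h1.symm
    rw [h2, IsLocalization.mk'_zero]
  have hrange : ∀ a : A, (Φ : A →+* L) a ∈ ι.range := by
    intro a
    obtain ⟨p, q, hq, hpq, -⟩ := hΦ a
    have hqm : q ∈ 𝔪.primeCompl := fun h => hq ((h𝔪 _).1 h)
    refine ⟨IsLocalization.mk' _ p ⟨q, hqm⟩, ?_⟩
    have h1 : ι (IsLocalization.mk' _ p (⟨q, hqm⟩ : 𝔪.primeCompl)) * ι (algebraMap A _ q) =
        ι (algebraMap A _ p) := by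
      rw [← map_mul]
      congr 1
      exact IsLocalization.mk'_spec _ p (⟨q, hqm⟩ : 𝔪.primeCompl)
    rw [hιa, hιa, ← hpq] at h1
    have hq0 : (q : L) ≠ 0 := by
      intro h
      apply hq
      have : q = 0 := Subtype.ext h
      rw [this, map_zero]
    exact mul_right_cancel₀ hq0 h1
  let E : Localization.AtPrime 𝔪 ≃+* ι.range :=
    RingEquiv.ofBijective ι.rangeRestrict
      ⟨fun x y h => hinj (congrArg Subtype.val h), ι.rangeRestrict_surjective⟩
  let Φ' : A →+* Localization.AtPrime 𝔪 :=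
    (E.symm : ι.range →+* Localization.AtPrime 𝔪).comp ((Φ : A →+* L).codRestrict ι.range hrange)
  have hΦ' : ∀ a, ι (Φ' a) = Φ a := by
    intro a
    have h1 : E (Φ' a) = ⟨Φ a, hrange a⟩ := E.apply_symm_apply _
    exact congrArg Subtype.val h1
  refine ⟨ι, e, Φ', hinj, hιa, hea, hΦ', ?_⟩
  intro a
  obtain ⟨p, q, hq, hpq, hc'⟩ := hΦ a
  have h1 : Φ' a * algebraMap A _ q = algebraMap A _ p := by
    apply hinj
    rw [map_mul, hΦ', hιa, hιa, hpq]
  have h2 := congrArg e h1
  rw [map_mul, hea, hea, hc'] at h2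
  exact mul_right_cancel₀ hq h2

end local_

section schemes

theorem isSmoothCurve {k L : Type u} [Field k] [Field L] [Algebra k L] (A : Subalgebra k L)
    (h : SmCurve k A) :
    PGH.IsSmoothCurve k (Spec.map (CommRingCat.ofHom (algebraMap k A))) where
  integral := inferInstance
  separated := inferInstance
  quasiCompact := inferInstance
  smooth := by
    rw [HasRingHomProperty.Spec_iff (P := @SmoothOfRelativeDimension 1)]
    apply RingHom.locally_of
      (RingHom.isStandardSmoothOfRelativeDimension_respectsIso (n := 1))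
    exact (RingHom.isStandardSmoothOfRelativeDimension_algebraMap (n := 1)).2 h.smooth

/-- the constants in the ring of an affine open -/
noncomputable def kap (k : Type u) [Field k] {X : Scheme.{u}} (f : X ⟶ Spec (.of k))
    (U : X.Opens) : k →+* Γ(X, U) :=
  ((X.presheaf.map (homOfLE le_top).op).hom).comp
    (((Scheme.ΓSpecIso (.of k)).inv ≫ f.appTop).hom)

theorem kap_finiteType (k : Type u) [Field k] {X : Scheme.{u}} (f : X ⟶ Spec (.of k))
    [LocallyOfFiniteType f] (U : X.Opens) (hU : IsAffineOpen U) : (kap k f U).FiniteType := by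
  have h1 : (f.appLE ⊤ U le_top).hom.FiniteType :=
    f.finiteType_appLE (isAffineOpen_top _) hU le_top
  have h2 : ((Scheme.ΓSpecIso (CommRingCat.of k)).inv).hom.FiniteType := by
    apply RingHom.FiniteType.of_surjective
    intro x
    exact ⟨(Scheme.ΓSpecIso (CommRingCat.of k)).hom.hom x, by
      have := congr($((Scheme.ΓSpecIso (CommRingCat.of k)).hom_inv_id).hom x)
      exact this⟩
  exact h1.comp h2

theorem fromSpec_comp (k : Type u) [Field k] {X : Scheme.{u}} (f : X ⟶ Spec (.of k))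
    (U : X.Opens) (hU : IsAffineOpen U) :
    hU.fromSpec ≫ f = Spec.map (CommRingCat.ofHom (kap k f U)) := by
  rw [← IsAffineOpen.SpecMap_appLE_fromSpec f (isAffineOpen_top _) hU le_top,
    IsAffineOpen.fromSpec_top, Scheme.isoSpec_Spec_inv, ← Spec.map_comp]
  rfl

theorem dominant_of_injective {R S : Type u} [CommRing R] [CommRing S] (φ : R →+* S)
    (h : Function.Injective φ) : IsDominant (Spec.map (CommRingCat.ofHom φ)) := by
  constructor
  have h1 : DenseRange (PrimeSpectrum.comap φ) := by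
    rw [PrimeSpectrum.denseRange_comap_iff_ker_le_nilRadical]
    rw [(RingHom.injective_iff_ker_eq_bot φ).1 h]
    exact bot_le
  exact h1

end schemes

theorem cov (hext : EXTStmt.{u}) : COVStmt.{u} := by
  intro k _ _ _ X f _ _ H ⟨Z, hZc, hZne, hfin⟩
  classical
  obtain ⟨U, hU, -, hdisj, L, _, _, ⟨halg, hgood⟩, Ψ, hΨk, a, ha⟩ := H Z hZc hZne
  have hΨk' : ∀ c : k, Ψ (kap k f U c) = algebraMap k L c := hΨk
  have hft := kap_finiteType k f U hU
  letI algU : Algebra k Γ(X, U) := (kap k f U).toAlgebra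
  have hft' : Algebra.FiniteType k Γ(X, U) := hft
  obtain ⟨S, hS⟩ := hft'.out
  obtain ⟨A, c, Φ, hSA, hsm, hΦinj, hΦi, hΦ⟩ := hgood (S.image Ψ)
  have hded := hsm.ded
  have hftA := hsm.ft
  have hfrac := hsm.frac
  have hΨA : ∀ r, Ψ r ∈ A.toSubring := by
    intro r
    have hr : r ∈ Algebra.adjoin k (S : Set Γ(X, U)) := by rw [hS]; trivial
    induction hr using Algebra.adjoin_induction with
    | mem x hx => exact hSA _ (Finset.mem_image_of_mem Ψ hx)
    | algebraMap r =>
      have : Ψ (algebraMap k Γ(X, U) r) = algebraMap k L r := hΨk' r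
      rw [this]
      exact A.algebraMap_mem r
    | add x y _ _ hx hy => rw [map_add]; exact add_mem hx hy
    | mul x y _ _ hx hy => rw [map_mul]; exact mul_mem hx hy
  let Ψ' : Γ(X, U) →+* A := Ψ.codRestrict A.toSubring hΨA
  have hΨ' : ∀ r, ((Ψ' r : A) : L) = Ψ r := fun r => rfl
  have hΨ'k : ∀ r : k, Ψ' (kap k f U r) = algebraMap k A r := fun r => Subtype.ext (hΨk' r)
  let g : Spec (.of A) ⟶ Spec (.of k) := Spec.map (CommRingCat.ofHom (algebraMap k A))
  let u : Spec (.of A) ⟶ X := Spec.map (CommRingCat.ofHom Ψ') ≫ hU.fromSpec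
  have huf : u ≫ f = g := by
    show (Spec.map (CommRingCat.ofHom Ψ') ≫ hU.fromSpec) ≫ f = _
    rw [Category.assoc, fromSpec_comp, ← Spec.map_comp, ← CommRingCat.ofHom_comp]
    have h1 : Ψ'.comp (kap k f U) = algebraMap k A := RingHom.ext hΨ'k
    rw [h1]
  let cpt : Spec (.of k) ⟶ Spec (.of A) := Spec.map (CommRingCat.ofHom (c : A →+* k))
  have hcg : cpt ≫ g = 𝟙 _ := by
    show Spec.map _ ≫ Spec.map _ = _
    rw [← Spec.map_comp, ← CommRingCat.ofHom_comp]
    have h1 : (c : A →+* k).comp (algebraMap k A) = RingHom.id k := by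
      ext r
      exact c.commutes r
    rw [h1]
    exact Spec.map_id _
  have hxf : (cpt ≫ u) ≫ f = 𝟙 _ := by rw [Category.assoc, huf, hcg]
  have hxZ : ∀ p, (cpt ≫ u) p ∉ Z := by
    intro p hp
    have h1 : (cpt ≫ u) p ∈ (U : Set X) := by
      rw [← IsAffineOpen.range_fromSpec hU]
      exact ⟨(cpt ≫ Spec.map (CommRingCat.ofHom Ψ')) p, by
        rw [← Scheme.Hom.comp_apply, Category.assoc]⟩
    exact Set.disjoint_left.1 hdisj h1 hp
  have hT := hfin (cpt ≫ u) hxf hxZ (Spec (.of A)) g (isSmoothCurve A hsm) cpt hcg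
  -- the maximal ideal
  let 𝔪 : Ideal A := RingHom.ker (c : A →+* k)
  haveI : 𝔪.IsPrime := RingHom.ker_isPrime _
  have h𝔪 : ∀ a, a ∈ 𝔪 ↔ c a = 0 := fun a => RingHom.mem_ker
  -- the morphisms
  let φ : ℕ → (Spec (.of L) ⟶ X) := fun j =>
    Spec.map (CommRingCat.ofHom (Φ j : A →+* L)) ≫ u
  have hφf : ∀ j, φ j ≫ f = Spec.map (CommRingCat.ofHom (algebraMap k L)) := by
    intro j
    show (Spec.map _ ≫ u) ≫ f = _
    rw [Category.assoc, huf]
    show Spec.map _ ≫ Spec.map _ = _
    rw [← Spec.map_comp, ← CommRingCat.ofHom_comp]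
    have h1 : (Φ j : A →+* L).comp (algebraMap k A) = algebraMap k L := by
      ext r
      exact (Φ j).commutes r
    rw [h1]
  have hexth : ∀ j, ∃ h : Spec (.of A) ⟶ X,
      h ≫ f = Spec.map (CommRingCat.ofHom (algebraMap k A)) ∧
      Spec.map (CommRingCat.ofHom (algebraMap A L)) ≫ h = φ j := fun j =>
    hext k X f L A (φ j) (hφf j)
  choose h hhf hhφ using hexth
  have hmem : ∀ j, h j ∈ {h : Spec (.of A) ⟶ X | h ≫ f = g ∧ cpt ≫ h = cpt ≫ u} := by
    intro j
    refine ⟨hhf j, ?_⟩
    obtain ⟨ι, e, Φ', hι, hιa, hea, hιΦ, heΦ⟩ := exists_local A c 𝔪 h𝔪 (Φ j) (hΦ j)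
    have hdom := dominant_of_injective ι hι
    have hkey : Spec.map (CommRingCat.ofHom (algebraMap A (Localization.AtPrime 𝔪))) ≫ h j =
        Spec.map (CommRingCat.ofHom Φ') ≫ u := by
      refine ext_of_isDominant_of_isSeparated f ?_ (Spec.map (CommRingCat.ofHom ι)) ?_
      · rw [Category.assoc, Category.assoc, hhf, huf]
        show Spec.map _ ≫ Spec.map _ = Spec.map _ ≫ Spec.map _
        rw [← Spec.map_comp, ← CommRingCat.ofHom_comp, ← Spec.map_comp, ← CommRingCat.ofHom_comp]
        have h1 : (algebraMap A (Localization.AtPrime 𝔪)).comp (algebraMap k A) =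
            Φ'.comp (algebraMap k A) := by
          ext r
          apply hι
          show ι (algebraMap A _ (algebraMap k A r)) = ι (Φ' (algebraMap k A r))
          rw [hιa, hιΦ, (Φ j).commutes]
          rfl
        rw [h1]
      · rw [← Category.assoc, ← Spec.map_comp, ← CommRingCat.ofHom_comp, ← Category.assoc,
          ← Spec.map_comp, ← CommRingCat.ofHom_comp]
        have h1 : ι.comp (algebraMap A (Localization.AtPrime 𝔪)) = algebraMap A L := by
          ext r
          exact hιa r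
        have h2 : ι.comp Φ' = (Φ j : A →+* L) := by
          ext r
          exact hιΦ r
        rw [h1, h2, hhφ]
    have hc1 : cpt = Spec.map (CommRingCat.ofHom e) ≫
        Spec.map (CommRingCat.ofHom (algebraMap A (Localization.AtPrime 𝔪))) := by
      rw [← Spec.map_comp, ← CommRingCat.ofHom_comp]
      have h1 : e.comp (algebraMap A (Localization.AtPrime 𝔪)) = (c : A →+* k) := by
        ext r
        exact hea r
      rw [h1]
    have hc2 : cpt = Spec.map (CommRingCat.ofHom e) ≫ Spec.map (CommRingCat.ofHom Φ') := by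
      rw [← Spec.map_comp, ← CommRingCat.ofHom_comp]
      have h1 : e.comp Φ' = (c : A →+* k) := by
        ext r
        exact heΦ r
      rw [h1]
    calc cpt ≫ h j = (Spec.map (CommRingCat.ofHom e) ≫
        Spec.map (CommRingCat.ofHom (algebraMap A (Localization.AtPrime 𝔪)))) ≫ h j := by
          rw [← hc1]
      _ = Spec.map (CommRingCat.ofHom e) ≫ (Spec.map (CommRingCat.ofHom Φ') ≫ u) := by
          rw [Category.assoc, hkey]
      _ = cpt ≫ u := by rw [← Category.assoc, ← hc2]
  -- finite fibres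
  have hfib : ∀ b ∈ {h : Spec (.of A) ⟶ X | h ≫ f = g ∧ cpt ≫ h = cpt ≫ u},
      (h ⁻¹' {b}).Finite := by
    intro b _
    by_cases hne : (h ⁻¹' {b}).Nonempty
    swap
    · rw [Set.not_nonempty_iff_eq_empty.1 hne]
      exact Set.finite_empty
    obtain ⟨i, hi⟩ := hne
    have htr : Transcendental k (Φ i (Ψ' a)) := by
      intro hal
      have h1 : IsAlgebraic k (Ψ' a) := by
        exact (isAlgebraic_algHom_iff (Φ i) (hΦi i)).1 hal
      exact ha ((isAlgebraic_algHom_iff A.val Subtype.val_injective).2 h1)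
    have hfh := finite_homs A hftA (Ψ' a) (halg _ ha) (Φ i (Ψ' a)) htr
    refine (hfh.preimage hΦinj.injOn).subset ?_
    intro j hj
    have hij : h j = h i := (hj : h j = b).trans (hi : h i = b).symm
    show Φ j (Ψ' a) = Φ i (Ψ' a)
    have h1 : φ j = φ i := by rw [← hhφ j, ← hhφ i, hij]
    have h2 : Spec.map (CommRingCat.ofHom ((Φ j : A →+* L).comp Ψ')) ≫ hU.fromSpec =
        Spec.map (CommRingCat.ofHom ((Φ i : A →+* L).comp Ψ')) ≫ hU.fromSpec := by
      rw [CommRingCat.ofHom_comp, Spec.map_comp, CommRingCat.ofHom_comp, Spec.map_comp,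
        Category.assoc, Category.assoc]
      exact h1
    rw [cancel_mono] at h2
    have h3 := Spec.map_injective h2
    have h4 := congr($(h3).hom a)
    exact h4
  have := hT.preimage' hfib
  refine Set.infinite_univ (α := ℕ) (this.subset ?_)
  intro j _
  exact hmem j

end Pool.Agent.PGE.H69
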