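import Pool.Agent.Helper45_PGE.Defs

/-!
MP_5b1cbc_ag, squad PGE, module FLD: the Kummer fields of the types `(3,3,3)`, `(4,4,2)`,
`(2,2,2,2)` and the rational ones inside `k((t))`.
-/

set_option autoImplicit false

open Polynomial

universe u

namespace Pool.Agent.PGE.H69

open Pool.Agent.PGE

section general

variable {k K : Type u} [Field k] [Field K] [Algebra k K]

theorem good_rat [IsAlgClosed k] [CharZero k] (hrat : RATStmt.{u}) (v : K)
    (hv : Transcendental k v) : Good k (IntermediateField.adjoin k {v}) := by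
  have hvm : v ∈ IntermediateField.adjoin k {v} := IntermediateField.mem_adjoin_simple_self k v
  refine hrat k (IntermediateField.adjoin k {v}) ⟨v, hvm⟩ ?_ ?_
  · intro h
    exact hv (h.algebraMap (A := K))
  · apply IntermediateField.lift_injective
    rw [IntermediateField.lift_adjoin, IntermediateField.lift_top, Set.image_singleton]

theorem good_qua [IsAlgClosed k] [CharZero k] (hqua : QUAStmt.{u}) (v s : K) (Q : k[X])
    (hv : Transcendental k v) (hs : s ^ 2 = aeval v Q) (hQ : Q ≠ 0) (hd : Q.natDegree ≤ 4) :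
    Good k (IntermediateField.adjoin k {v, s}) := by
  have hvm : v ∈ IntermediateField.adjoin k {v, s} :=
    IntermediateField.subset_adjoin k _ (Set.mem_insert _ _)
  have hsm : s ∈ IntermediateField.adjoin k {v, s} :=
    IntermediateField.subset_adjoin k _ (Set.mem_insert_of_mem _ rfl)
  refine hqua k (IntermediateField.adjoin k {v, s}) ⟨v, hvm⟩ ⟨s, hsm⟩ Q ?_ ?_ hQ hd ?_
  · intro h
    exact hv (h.algebraMap (A := K))
  · apply Subtype.ext
    have h1 := Polynomial.aeval_algebraMap_apply K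
      (⟨v, hvm⟩ : IntermediateField.adjoin k {v, s}) Q
    exact hs.trans h1
  · apply IntermediateField.lift_injective
    rw [IntermediateField.lift_adjoin, IntermediateField.lift_top, Set.image_insert_eq,
      Set.image_singleton]

/-- the linear form `1 + b T` -/
def ell (T : K) (b : k) : K := 1 + algebraMap k K b * T

theorem ell_eq (T : K) (b : k) : ell T b = aeval T (1 + C b * X : k[X]) := by
  simp [ell]

theorem ell_ne {T : K} (hT : Transcendental k T) (b : k) : ell T b ≠ 0 := by
  rw [ell_eq]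
  intro h
  have h1 := (transcendental_iff.1 hT) _ h
  have h2 := congrArg (fun p : k[X] => p.coeff 0) h1
  simp at h2

theorem T_mem {T : K} (hT : Transcendental k T) {b₁ b₂ : k} (hb : b₁ ≠ b₂)
    (F : IntermediateField k K) (h : ell T b₂ / ell T b₁ ∈ F) : T ∈ F := by
  have hb' : algebraMap k K b₁ - algebraMap k K b₂ ≠ 0 := by
    rw [← map_sub]
    exact (_root_.map_ne_zero _).2 (sub_ne_zero.2 hb)
  have h1 := ell_ne hT b₁
  have h2 : (algebraMap k K b₁ * (ell T b₂ / ell T b₁) - algebraMap k K b₂) =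
      (algebraMap k K b₁ - algebraMap k K b₂) / ell T b₁ := by
    field_simp
    unfold ell
    ring
  have h3 : (1 - ell T b₂ / ell T b₁) =
      (algebraMap k K b₁ - algebraMap k K b₂) * T / ell T b₁ := by
    field_simp
    unfold ell
    ring
  have h4 : T = (1 - ell T b₂ / ell T b₁) /
      (algebraMap k K b₁ * (ell T b₂ / ell T b₁) - algebraMap k K b₂) := by
    rw [h2, h3]
    field_simp
  rw [h4]
  exact F.div_mem (F.sub_mem F.one_mem h)
    (F.sub_mem (F.mul_mem (F.algebraMap_mem _) h) (F.algebraMap_mem _))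

theorem ell_mem {T : K} {F : IntermediateField k K} (hT : T ∈ F) (b : k) : ell T b ∈ F :=
  F.add_mem F.one_mem (F.mul_mem (F.algebraMap_mem _) hT)

theorem transc_of_mem {v w : K} (hv : Transcendental k v)
    (h : v ∈ IntermediateField.adjoin k {w}) : Transcendental k w := by
  intro hu
  have h1 : Algebra.IsAlgebraic k (IntermediateField.adjoin k {w}) :=
    IntermediateField.isAlgebraic_adjoin_simple hu.isIntegral
  have h2 := h1.isAlgebraic (⟨v, h⟩ : IntermediateField.adjoin k {w})
  exact hv (h2.algebraMap (A := K))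

theorem w_transc {T : K} (hT : Transcendental k T) {b₁ b₂ : k} (hb : b₁ ≠ b₂) :
    Transcendental k (ell T b₂ / ell T b₁) :=
  transc_of_mem hT (T_mem hT hb _ (IntermediateField.mem_adjoin_simple_self k _))

theorem pow_transc {v : K} {m : ℕ} (h : Transcendental k (v ^ m)) : Transcendental k v :=
  fun h1 => h (h1.pow m)

/-- rational case -/
theorem case5 [IsAlgClosed k] [CharZero k] (hrat : RATStmt.{u}) {T : K}
    (hT : Transcendental k T) {b₁ b₂ : k} (hb : b₁ ≠ b₂) (m : ℕ) (hm : m ≠ 0) (U : K)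
    (hU : U ^ m = ell T b₁ * ell T b₂ ^ (m - 1)) :
    ∃ L : IntermediateField k K, T ∈ L ∧ U ∈ L ∧ Good k L := by
  have h2 := ell_ne hT b₂
  have hp : (U / ell T b₂) ^ m = ell T b₁ / ell T b₂ := by
    rw [div_pow, hU, ← mul_pow_sub_one hm (ell T b₂)]
    field_simp
  have htr : Transcendental k (U / ell T b₂) := by
    apply pow_transc (m := m)
    rw [hp]
    exact w_transc hT hb.symm
  have hself := IntermediateField.mem_adjoin_simple_self k (U / ell T b₂)
  have hTm : T ∈ IntermediateField.adjoin k {U / ell T b₂} := by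
    apply T_mem hT hb.symm
    rw [← hp]
    exact pow_mem hself m
  refine ⟨IntermediateField.adjoin k {U / ell T b₂}, hTm, ?_, good_rat hrat _ htr⟩
  have h4 := mul_mem hself (ell_mem hTm b₂)
  rwa [div_mul_cancel₀ _ h2] at h4

/-- the coefficients of `ell b₃` in terms of `ell b₁`, `ell b₂` -/
theorem exists_ab (T : K) {b₁ b₂ : k} (hb : b₁ ≠ b₂) (b₃ : k) : ∃ α β : k, α + β = 1 ∧
    ell T b₃ = algebraMap k K α * ell T b₁ + algebraMap k K β * ell T b₂ := by
  have hb' : b₂ - b₁ ≠ 0 := sub_ne_zero.2 hb.symm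
  refine ⟨(b₂ - b₃) / (b₂ - b₁), (b₃ - b₁) / (b₂ - b₁), ?_, ?_⟩
  · field_simp
    ring
  · have h1 : (b₂ - b₃) / (b₂ - b₁) + (b₃ - b₁) / (b₂ - b₁) = 1 := by
      field_simp
      ring
    have h2 : (b₂ - b₃) / (b₂ - b₁) * b₁ + (b₃ - b₁) / (b₂ - b₁) * b₂ = b₃ := by
      field_simp
      ring
    have h1' := congrArg (algebraMap k K) h1
    have h2' := congrArg (algebraMap k K) h2
    rw [map_add, map_one] at h1'
    rw [map_add, map_mul, map_mul] at h2'
    unfold ell
    linear_combination -h1' - T * h2'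

theorem transc_poly {w : K} (hw : Transcendental k w) {α β : k} (h : α + β = 1) :
    Transcendental k (aeval w (C α * X + C β * X ^ 2 : k[X])) := by
  have hd : (C α * X + C β * X ^ 2 : k[X]).natDegree ≠ 0 := by
    intro hd
    rw [Polynomial.natDegree_eq_zero] at hd
    obtain ⟨c, hc⟩ := hd
    have h1 := congrArg (fun p : k[X] => p.coeff 1) hc
    have h2 := congrArg (fun p : k[X] => p.coeff 2) hc
    simp [coeff_X, coeff_C] at h1 h2
    rw [← h1, ← h2, add_zero] at h
    exact zero_ne_one h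
  exact hw.aeval _ hd (mem_nonZeroDivisors_of_ne_zero (Polynomial.leadingCoeff_ne_zero.2
    (fun h0 => hd (by rw [h0, natDegree_zero]))))

/-- type `(3,3,3)` -/
theorem case1 [IsAlgClosed k] [CharZero k] (hrat : RATStmt.{u}) (hqua : QUAStmt.{u}) {T : K}
    (hT : Transcendental k T) {b₁ b₂ : k} (hb : b₁ ≠ b₂) (b₃ : k) (U : K)
    (hU : U ^ 3 = ell T b₁ * ell T b₂ * ell T b₃) :
    ∃ L : IntermediateField k K, T ∈ L ∧ U ∈ L ∧ Good k L := by
  obtain ⟨α, β, hαβ, h3⟩ := exists_ab T hb b₃
  have h1 := ell_ne hT b₁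
  have h2 := ell_ne hT b₂
  set w : K := ell T b₂ / ell T b₁ with hw
  have hwt : Transcendental k w := w_transc hT hb
  set v : K := U / ell T b₁ with hv
  have hUv : U = v * ell T b₁ := by rw [hv]; field_simp
  have hv3 : v ^ 3 = w * (algebraMap k K α + algebraMap k K β * w) := by
    rw [hv, div_pow, hU, h3, hw]
    field_simp
  have hvt : Transcendental k v := by
    apply pow_transc (m := 3)
    have : w * (algebraMap k K α + algebraMap k K β * w) =
        aeval w (C α * X + C β * X ^ 2 : k[X]) := by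
      simp only [map_add, map_mul, aeval_C, aeval_X, map_pow]
      ring
    rw [hv3, this]
    exact transc_poly hwt hαβ
  by_cases hβ : β = 0
  · -- rational
    have hα : α = 1 := by rw [hβ, add_zero] at hαβ; exact hαβ
    have hvw : v ^ 3 = w := by rw [hv3, hβ, hα]; simp
    have hself := IntermediateField.mem_adjoin_simple_self k v
    have hTm : T ∈ IntermediateField.adjoin k {v} := by
      apply T_mem hT hb
      rw [← hw, ← hvw]
      exact pow_mem hself 3
    refine ⟨IntermediateField.adjoin k {v}, hTm, ?_, good_rat hrat _ hvt⟩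
    rw [hUv]
    exact mul_mem hself (ell_mem hTm b₁)
  · have hβ' : algebraMap k K β ≠ 0 := (_root_.map_ne_zero _).2 hβ
    set s : K := 2 * algebraMap k K β * w + algebraMap k K α with hs
    have hs2 : s ^ 2 = aeval v (C (4 * β) * X ^ 3 + C (α ^ 2) : k[X]) := by
      simp only [map_add, map_mul, aeval_C, aeval_X, map_pow, map_ofNat]
      rw [hv3, hs]
      ring
    have hvm : v ∈ IntermediateField.adjoin k {v, s} :=
      IntermediateField.subset_adjoin k _ (Set.mem_insert _ _)
    have hsm : s ∈ IntermediateField.adjoin k {v, s} :=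
      IntermediateField.subset_adjoin k _ (Set.mem_insert_of_mem _ rfl)
    have hwm : w ∈ IntermediateField.adjoin k {v, s} := by
      have h2K : (2 : K) ≠ 0 := by
        have : (2 : K) = algebraMap k K 2 := by rw [map_ofNat]
        rw [this]
        exact (_root_.map_ne_zero _).2 two_ne_zero
      have : w = (s - algebraMap k K α) / (algebraMap k K (2 * β)) := by
        rw [hs, map_mul, map_ofNat]
        field_simp
        ring
      rw [this]
      exact div_mem (sub_mem hsm (IntermediateField.algebraMap_mem _ _))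
        (IntermediateField.algebraMap_mem _ _)
    have hTm : T ∈ IntermediateField.adjoin k {v, s} := T_mem hT hb _ hwm
    refine ⟨IntermediateField.adjoin k {v, s}, hTm, ?_, good_qua hqua v s _ hvt hs2 ?_ ?_⟩
    · rw [hUv]
      exact mul_mem hvm (ell_mem hTm b₁)
    · intro h
      have h4 := congrArg (fun p : k[X] => p.coeff 3) h
      simp only [coeff_add, coeff_C_mul, coeff_X_pow, coeff_C, if_true, coeff_zero] at h4
      rw [if_neg (by norm_num), mul_one, add_zero] at h4
      exact hβ ((mul_eq_zero.1 h4).resolve_left (by norm_num))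
    · compute_degree
      omega

/-- type `(4,4,2)` -/
theorem case2 [IsAlgClosed k] [CharZero k] (hqua : QUAStmt.{u}) {T : K}
    (hT : Transcendental k T) {b₁ b₂ : k} (hb : b₁ ≠ b₂) (b₃ : k) (U : K)
    (hU : U ^ 4 = ell T b₁ * ell T b₂ * ell T b₃ ^ 2) :
    ∃ L : IntermediateField k K, T ∈ L ∧ U ∈ L ∧ Good k L := by
  obtain ⟨α, β, hαβ, h3⟩ := exists_ab T hb b₃
  have h1 := ell_ne hT b₁
  have h2 := ell_ne hT b₂
  have h3' := ell_ne hT b₃
  set p : K := U ^ 2 / (ell T b₁ * ell T b₃) with hp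
  have hpw : p ^ 2 = ell T b₂ / ell T b₁ := by
    rw [hp, div_pow, ← pow_mul, hU]
    field_simp
  have hpt : Transcendental k p := by
    apply pow_transc (m := 2)
    rw [hpw]
    exact w_transc hT hb
  set s : K := U / ell T b₁ with hs
  have hUs : U = s * ell T b₁ := by rw [hs]; field_simp
  have hs2 : s ^ 2 = aeval p (C β * X ^ 3 + C α * X : k[X]) := by
    have h4 : s ^ 2 = p * (ell T b₃ / ell T b₁) := by
      rw [hs, hp, div_pow]
      field_simp
    have h5 : ell T b₃ / ell T b₁ = algebraMap k K α + algebraMap k K β * p ^ 2 := by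
      rw [hpw, h3]
      field_simp
    rw [h4, h5]
    simp only [map_add, map_mul, aeval_C, aeval_X, map_pow]
    ring
  have hpm : p ∈ IntermediateField.adjoin k {p, s} :=
    IntermediateField.subset_adjoin k _ (Set.mem_insert _ _)
  have hsm : s ∈ IntermediateField.adjoin k {p, s} :=
    IntermediateField.subset_adjoin k _ (Set.mem_insert_of_mem _ rfl)
  have hTm : T ∈ IntermediateField.adjoin k {p, s} := by
    apply T_mem hT hb
    rw [← hpw]
    exact pow_mem hpm 2
  refine ⟨IntermediateField.adjoin k {p, s}, hTm, ?_, good_qua hqua p s _ hpt hs2 ?_ ?_⟩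
  · rw [hUs]
    exact mul_mem hsm (ell_mem hTm b₁)
  · intro h
    have h6 := congrArg (fun p : k[X] => p.coeff 3) h
    have h7 := congrArg (fun p : k[X] => p.coeff 1) h
    simp only [coeff_add, coeff_C_mul, coeff_X_pow, coeff_X, coeff_zero] at h6 h7
    norm_num at h6 h7
    rw [h6, h7, add_zero] at hαβ
    exact zero_ne_one hαβ
  · compute_degree
    omega

/-- type `(2,2,2,2)`, two square roots -/
theorem case4 [IsAlgClosed k] [CharZero k] (hqua : QUAStmt.{u}) {T : K}
    (hT : Transcendental k T) {b₁ b₂ : k} (hb : b₁ ≠ b₂) (b₃ b₄ : k) (U V : K)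
    (hU : U ^ 2 = ell T b₁ * ell T b₂) (hV : V ^ 2 = ell T b₃ * ell T b₄) :
    ∃ L : IntermediateField k K, T ∈ L ∧ U ∈ L ∧ V ∈ L ∧ Good k L := by
  obtain ⟨α, β, hαβ, h3⟩ := exists_ab T hb b₃
  obtain ⟨α', β', hαβ', h3'⟩ := exists_ab T hb b₄
  have h1 := ell_ne hT b₁
  have h2 := ell_ne hT b₂
  set p : K := U / ell T b₁ with hp
  have hpw : p ^ 2 = ell T b₂ / ell T b₁ := by
    rw [hp, div_pow, hU]
    field_simp
  have hpt : Transcendental k p := by
    apply pow_transc (m := 2)
    rw [hpw]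
    exact w_transc hT hb
  set s : K := V / ell T b₁ with hs
  have hUs : U = p * ell T b₁ := by rw [hp]; field_simp
  have hVs : V = s * ell T b₁ := by rw [hs]; field_simp
  have hs2 : s ^ 2 = aeval p ((C β * X ^ 2 + C α) * (C β' * X ^ 2 + C α') : k[X]) := by
    have h4 : s ^ 2 = (ell T b₃ / ell T b₁) * (ell T b₄ / ell T b₁) := by
      rw [hs, div_pow, hV]
      field_simp
    have h5 : ell T b₃ / ell T b₁ = algebraMap k K α + algebraMap k K β * p ^ 2 := by
      rw [hpw, h3]
      field_simp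
    have h6 : ell T b₄ / ell T b₁ = algebraMap k K α' + algebraMap k K β' * p ^ 2 := by
      rw [hpw, h3']
      field_simp
    rw [h4, h5, h6]
    simp only [map_add, map_mul, aeval_C, aeval_X, map_pow]
    ring
  have hpm : p ∈ IntermediateField.adjoin k {p, s} :=
    IntermediateField.subset_adjoin k _ (Set.mem_insert _ _)
  have hsm : s ∈ IntermediateField.adjoin k {p, s} :=
    IntermediateField.subset_adjoin k _ (Set.mem_insert_of_mem _ rfl)
  have hTm : T ∈ IntermediateField.adjoin k {p, s} := by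
    apply T_mem hT hb
    rw [← hpw]
    exact pow_mem hpm 2
  have hne : ∀ a b : k, a + b = 1 → (C b * X ^ 2 + C a : k[X]) ≠ 0 := by
    intro a b hab h
    have h7 := congrArg (fun p : k[X] => p.eval 1) h
    simp only [eval_add, eval_mul, eval_C, eval_pow, eval_X, one_pow, mul_one, eval_zero] at h7
    rw [add_comm] at h7
    rw [h7] at hab
    exact zero_ne_one hab
  refine ⟨IntermediateField.adjoin k {p, s}, hTm, ?_, ?_, good_qua hqua p s _ hpt hs2 ?_ ?_⟩
  · rw [hUs]
    exact mul_mem hpm (ell_mem hTm b₁)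
  · rw [hVs]
    exact mul_mem hsm (ell_mem hTm b₁)
  · exact mul_ne_zero (hne _ _ hαβ) (hne _ _ hαβ')
  · compute_degree

/-- type `(2,2,2,2)`, one square root -/
theorem case3 [IsAlgClosed k] [CharZero k] (hqua : QUAStmt.{u}) {T : K}
    (hT : Transcendental k T) (b₁ b₂ b₃ b₄ : k) (U : K)
    (hU : U ^ 2 = ell T b₁ * ell T b₂ * ell T b₃ * ell T b₄) :
    ∃ L : IntermediateField k K, T ∈ L ∧ U ∈ L ∧ Good k L := by
  have hpm : T ∈ IntermediateField.adjoin k {T, U} :=
    IntermediateField.subset_adjoin k _ (Set.mem_insert _ _)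
  have hsm : U ∈ IntermediateField.adjoin k {T, U} :=
    IntermediateField.subset_adjoin k _ (Set.mem_insert_of_mem _ rfl)
  have hne : ∀ b : k, (1 + C b * X : k[X]) ≠ 0 := by
    intro b h
    have h7 := congrArg (fun p : k[X] => p.eval 0) h
    simp at h7
  refine ⟨IntermediateField.adjoin k {T, U}, hpm, hsm,
    good_qua hqua T U ((1 + C b₁ * X) * (1 + C b₂ * X) * (1 + C b₃ * X) * (1 + C b₄ * X)) hT ?_
      ?_ ?_⟩
  · rw [hU]
    simp only [ell_eq, map_mul]
  · exact mul_ne_zero (mul_ne_zero (mul_ne_zero (hne _) (hne _)) (hne _)) (hne _)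
  · compute_degree

theorem case0 [IsAlgClosed k] [CharZero k] (hrat : RATStmt.{u}) {T : K}
    (hT : Transcendental k T) : ∃ L : IntermediateField k K, T ∈ L ∧ Good k L :=
  ⟨_, IntermediateField.mem_adjoin_simple_self k T, good_rat hrat T hT⟩

end general

section series

variable {k : Type u} [Field k]

/-- `m`-th root of `1 + b t` -/
theorem exists_root [CharZero k] (m : ℕ) (hm : m ≠ 0) (b : k) :
    ∃ r : PowerSeries k, PowerSeries.constantCoeff r = 1 ∧ r ^ m = lin b := by
  letI : Algebra ℚ k := DivisionRing.toRatAlgebra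
  refine ⟨PowerSeries.rescale b (PowerSeries.binomialSeries k (1 / m : ℚ)), ?_, ?_⟩
  · rw [← PowerSeries.coeff_zero_eq_constantCoeff_apply, PowerSeries.coeff_rescale, pow_zero,
      one_mul, PowerSeries.coeff_zero_eq_constantCoeff_apply]
    exact PowerSeries.binomialSeries_constantCoeff _
  · rw [← map_pow]
    have h : ∀ n : ℕ, (PowerSeries.binomialSeries k (1 / m : ℚ)) ^ n =
        PowerSeries.binomialSeries k ((n : ℚ) * (1 / m : ℚ)) := by
      intro n
      induction n with
      | zero => simp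
      | succ n ih =>
        rw [pow_succ, ih, ← PowerSeries.binomialSeries_add]
        congr 1
        push_cast
        ring
    rw [h m]
    have h1 : (m : ℚ) * (1 / m : ℚ) = ((1 : ℕ) : ℚ) := by
      have : (m : ℚ) ≠ 0 := by exact_mod_cast hm
      field_simp
      norm_num
    rw [h1, PowerSeries.binomialSeries_nat]
    unfold lin
    simp [PowerSeries.rescale_X]

theorem T_transc : Transcendental k ((PowerSeries.X : PowerSeries k) : LaurentSeries k) := by
  rw [transcendental_iff_injective]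
  have h : ∀ p : k[X], aeval ((PowerSeries.X : PowerSeries k) : LaurentSeries k) p =
      ((p : PowerSeries k) : LaurentSeries k) := by
    intro p
    induction p using Polynomial.induction_on' with
    | add p q hp hq => rw [map_add, hp, hq, Polynomial.coe_add, map_add]
    | monomial n a =>
      rw [aeval_monomial, ← Polynomial.C_mul_X_pow_eq_monomial, Polynomial.coe_mul,
        Polynomial.coe_pow, Polynomial.coe_X, Polynomial.coe_C, map_mul, map_pow]
      congr 1
  intro p q hpq
  rw [h, h] at hpq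
  exact Polynomial.coe_injective k (HahnSeries.ofPowerSeries_injective hpq)

theorem lin_coe (b : k) : ((lin b : PowerSeries k) : LaurentSeries k) =
    ell ((PowerSeries.X : PowerSeries k) : LaurentSeries k) b := by
  unfold lin ell
  rw [map_add, map_mul, map_one]
  congr 2

theorem lin_const (b : k) : PowerSeries.constantCoeff (lin b) = 1 := by
  unfold lin
  simp

end series

theorem fld (hrat : RATStmt.{u}) (hqua : QUAStmt.{u}) : FLDStmt.{u} := by
  intro k _ _ _
  have hT := T_transc (k := k)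
  have hroot := fun m hm b => exists_root (k := k) m hm b
  refine ⟨?_, ?_, ?_, ?_, ?_⟩
  · intro b₁ b₂ b₃
    obtain ⟨r₁, h₁, e₁⟩ := hroot 3 (by norm_num) b₁
    obtain ⟨r₂, h₂, e₂⟩ := hroot 3 (by norm_num) b₂
    obtain ⟨r₃, h₃, e₃⟩ := hroot 3 (by norm_num) b₃
    have hU : (r₁ * r₂ * r₃) ^ 3 = lin b₁ * lin b₂ * lin b₃ := by
      rw [mul_pow, mul_pow, e₁, e₂, e₃]
    have hU' := congrArg (fun p : PowerSeries k => (p : LaurentSeries k)) hU
    simp only [map_pow, map_mul, lin_coe] at hU'
    by_cases hb : b₁ = b₂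
    · by_cases hb' : b₁ = b₃
      · subst hb
        subst hb'
        obtain ⟨L, hL, hG⟩ := case0 (k := k) hrat hT
        refine ⟨L, lin b₁, hL, ?_, lin_const _, by ring, hG⟩
        rw [lin_coe]
        exact ell_mem hL b₁
      · obtain ⟨L, hL, hUL, hG⟩ := case1 hrat hqua hT hb' b₂ _
          (hU'.trans (by ring))
        refine ⟨L, r₁ * r₂ * r₃, hL, ?_, ?_, hU, hG⟩
        · simpa only [map_mul] using hUL
        · simp [h₁, h₂, h₃]
    · obtain ⟨L, hL, hUL, hG⟩ := case1 hrat hqua hT hb b₃ _ hU'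
      refine ⟨L, r₁ * r₂ * r₃, hL, ?_, ?_, hU, hG⟩
      · simpa only [map_mul] using hUL
      · simp [h₁, h₂, h₃]
  · intro b₁ b₂ b₃
    obtain ⟨r₁, h₁, e₁⟩ := hroot 4 (by norm_num) b₁
    obtain ⟨r₂, h₂, e₂⟩ := hroot 4 (by norm_num) b₂
    obtain ⟨r₃, h₃, e₃⟩ := hroot 4 (by norm_num) b₃
    by_cases hb : b₁ = b₂
    · subst hb
      by_cases hb' : b₁ = b₃
      · subst hb'
        obtain ⟨L, hL, hG⟩ := case0 (k := k) hrat hT
        refine ⟨L, lin b₁, hL, ?_, lin_const _, by ring, hG⟩
        rw [lin_coe]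
        exact ell_mem hL b₁
      · have hU : (r₁ ^ 2 * r₃ ^ 2) ^ 2 = lin b₁ * lin b₃ ^ (2 - 1) := by
          rw [← e₁, ← e₃]
          ring
        have hU' := congrArg (fun p : PowerSeries k => (p : LaurentSeries k)) hU
        simp only [map_pow, map_mul, lin_coe] at hU'
        obtain ⟨L, hL, hUL, hG⟩ := case5 hrat hT hb' 2 (by norm_num) _ hU'
        refine ⟨L, r₁ ^ 2 * r₃ ^ 2, hL, ?_, ?_, ?_, hG⟩
        · simpa only [map_mul, map_pow] using hUL
        · simp [h₁, h₃]
        · rw [show 4 = 2 * 2 from rfl, pow_mul, hU]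
          ring
    · have hU : (r₁ * r₂ * r₃ ^ 2) ^ 4 = lin b₁ * lin b₂ * lin b₃ ^ 2 := by
        rw [← e₁, ← e₂, ← e₃]
        ring
      have hU' := congrArg (fun p : PowerSeries k => (p : LaurentSeries k)) hU
      simp only [map_pow, map_mul, lin_coe] at hU'
      obtain ⟨L, hL, hUL, hG⟩ := case2 hqua hT hb b₃ _ hU'
      refine ⟨L, r₁ * r₂ * r₃ ^ 2, hL, ?_, ?_, hU, hG⟩
      · simpa only [map_mul, map_pow] using hUL
      · simp [h₁, h₂, h₃]
  · intro b₁ b₂ b₃ b₄
    obtain ⟨r₁, h₁, e₁⟩ := hroot 2 (by norm_num) b₁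
    obtain ⟨r₂, h₂, e₂⟩ := hroot 2 (by norm_num) b₂
    obtain ⟨r₃, h₃, e₃⟩ := hroot 2 (by norm_num) b₃
    obtain ⟨r₄, h₄, e₄⟩ := hroot 2 (by norm_num) b₄
    have hU : (r₁ * r₂ * r₃ * r₄) ^ 2 = lin b₁ * lin b₂ * lin b₃ * lin b₄ := by
      rw [← e₁, ← e₂, ← e₃, ← e₄]
      ring
    have hU' := congrArg (fun p : PowerSeries k => (p : LaurentSeries k)) hU
    simp only [map_pow, map_mul, lin_coe] at hU'
    obtain ⟨L, hL, hUL, hG⟩ := case3 hqua hT b₁ b₂ b₃ b₄ _ hU'
    refine ⟨L, r₁ * r₂ * r₃ * r₄, hL, ?_, ?_, hU, hG⟩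
    · simpa only [map_mul, map_pow] using hUL
    · simp [h₁, h₂, h₃, h₄]
  · intro b₁ b₂ b₃ b₄
    obtain ⟨r₁, h₁, e₁⟩ := hroot 2 (by norm_num) b₁
    obtain ⟨r₂, h₂, e₂⟩ := hroot 2 (by norm_num) b₂
    obtain ⟨r₃, h₃, e₃⟩ := hroot 2 (by norm_num) b₃
    obtain ⟨r₄, h₄, e₄⟩ := hroot 2 (by norm_num) b₄
    have hV : (r₃ * r₄) ^ 2 = lin b₃ * lin b₄ := by
      rw [← e₃, ← e₄]
      ring
    have hV' := congrArg (fun p : PowerSeries k => (p : LaurentSeries k)) hV
    simp only [map_pow, map_mul, lin_coe] at hV'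
    by_cases hb : b₁ = b₂
    · subst hb
      obtain ⟨L, hL, hUL, hG⟩ := case3 hqua hT b₃ b₄ 0 0
        (((r₃ : PowerSeries k) : LaurentSeries k) * ((r₄ : PowerSeries k) : LaurentSeries k))
        (by rw [hV']; simp [ell])
      refine ⟨L, lin b₁, r₃ * r₄, hL, ?_, ?_, lin_const _, ?_, by ring, hV, hG⟩
      · rw [lin_coe]
        exact ell_mem hL b₁
      · simpa only [map_mul, map_pow] using hUL
      · simp [h₃, h₄]
    · have hU : (r₁ * r₂) ^ 2 = lin b₁ * lin b₂ := by
        rw [← e₁, ← e₂]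
        ring
      have hU' := congrArg (fun p : PowerSeries k => (p : LaurentSeries k)) hU
      simp only [map_pow, map_mul, lin_coe] at hU'
      obtain ⟨L, hL, hUL, hVL, hG⟩ := case4 hqua hT hb b₃ b₄ _ _ hU' hV'
      refine ⟨L, r₁ * r₂, r₃ * r₄, hL, ?_, ?_, ?_, ?_, hU, hV, hG⟩
      · simpa only [map_mul, map_pow] using hUL
      · simpa only [map_mul, map_pow] using hVL
      · simp [h₁, h₂]
      · simp [h₃, h₄]
  · intro m b₁ b₂ hm
    obtain ⟨r₁, h₁, e₁⟩ := hroot m hm b₁
    obtain ⟨r₂, h₂, e₂⟩ := hroot m hm b₂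
    by_cases hb : b₁ = b₂
    · subst hb
      obtain ⟨L, hL, hG⟩ := case0 (k := k) hrat hT
      refine ⟨L, lin b₁, hL, ?_, lin_const _, (mul_pow_sub_one hm _).symm, hG⟩
      rw [lin_coe]
      exact ell_mem hL b₁
    · have hU : (r₁ * r₂ ^ (m - 1)) ^ m = lin b₁ * lin b₂ ^ (m - 1) := by
        rw [← e₁, ← e₂]
        ring
      have hU' := congrArg (fun p : PowerSeries k => (p : LaurentSeries k)) hU
      simp only [map_pow, map_mul, lin_coe] at hU'
      obtain ⟨L, hL, hUL, hG⟩ := case5 hrat hT hb m hm _ hU'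
      refine ⟨L, r₁ * r₂ ^ (m - 1), hL, ?_, ?_, hU, hG⟩
      · simpa only [map_mul, map_pow] using hUL
      · simp [h₁, h₂]

end Pool.Agent.PGE.H69
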